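import Pool.Agent.Helper32_PQP.FTD

/-!
# PQP, row ESS: product maps with a boundary loop of nonzero winding number are essential
-/

set_option autoImplicit false

open scoped Topology
open Filter Set Metric

noncomputable section

namespace Pool.Agent.PQP.H32

lemma continuousAt_periodic_arg {ψ : ℝ → ℝ} (hψ : Continuous ψ)
    (hp : Function.Periodic ψ (2 * Real.pi)) {z : ℂ} (hz : z ≠ 0) :
    ContinuousAt (fun w : ℂ => ψ (Complex.arg w)) z := by
  by_cases hs : z ∈ Complex.slitPlane
  · exact hψ.continuousAt.comp (Complex.continuousAt_arg hs)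
  · have hs' : -z ∈ Complex.slitPlane := by
      have h1 := Complex.mem_slitPlane_iff.not.1 hs
      push Not at h1
      refine Complex.mem_slitPlane_iff.2 (Or.inl ?_)
      rw [Complex.neg_re, neg_pos]
      exact h1.1.lt_of_ne fun h0 => hz (Complex.ext_iff.2 ⟨h0, h1.2⟩)
    have h2 : ContinuousAt (fun w : ℂ => ψ (Complex.arg (-w) + Real.pi)) z := by
      refine hψ.continuousAt.comp ?_
      refine ContinuousAt.add ?_ continuousAt_const
      exact (Complex.continuousAt_arg hs').comp continuous_neg.continuousAt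
    refine h2.congr ?_
    filter_upwards [isOpen_ne.mem_nhds hz] with w hw
    have h3 := Complex.arg_neg_coe_angle (x := -w) (neg_ne_zero.2 hw)
    rw [neg_neg] at h3
    have h4 : ((Complex.arg w : ℝ) : Real.Angle) = ((Complex.arg (-w) + Real.pi : ℝ) : Real.Angle) := by
      rw [h3, Real.Angle.coe_add]
    obtain ⟨k, hk⟩ := Real.Angle.angle_eq_iff_two_pi_dvd_sub.1 h4
    have h5 : Complex.arg w = Complex.arg (-w) + Real.pi + k * (2 * Real.pi) := by linarith
    rw [h5]
    exact ((hp.int_mul k) _).symm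

lemma continuousAt_unit {z : ℂ} (hz : z ≠ 0) : ContinuousAt (fun w : ℂ => w / (‖w‖ : ℂ)) z := by
  refine continuousAt_id.div ?_ ?_
  · exact (Complex.continuous_ofReal.comp continuous_norm).continuousAt
  · exact_mod_cast (norm_ne_zero_iff.2 hz)

lemma unit_ne {z : ℂ} (hz : z ≠ 0) : z / (‖z‖ : ℂ) ≠ 0 :=
  div_ne_zero hz (by exact_mod_cast (norm_ne_zero_iff.2 hz))

lemma continuous_prw (W : ℤ) : Continuous (prw W) := by
  rw [continuous_iff_continuousAt]
  intro z
  by_cases hz : z = 0
  · have h0 : prw W 0 = 0 := by simp [prw]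
    rw [hz, ContinuousAt, h0]
    refine squeeze_zero_norm (a := fun w : ℂ => ‖w‖) (fun w => (norm_prw W w).le) ?_
    have := (continuous_norm (E := ℂ)).tendsto 0
    simpa using this
  · refine ContinuousAt.mul ?_ ?_
    · exact (Complex.continuous_ofReal.comp continuous_norm).continuousAt
    · exact (continuousAt_unit hz).zpow₀ W (Or.inl (unit_ne hz))

/-- periodicity of the angle up to a constant multiple of `2π` -/
lemma angle_period {b : ℂ → ℂ} {r θ : ℝ → ℝ} (hθ : Continuous θ) (hr0 : ∀ φ, 0 < r φ)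
    (hb : ∀ φ : ℝ, b (Complex.exp (φ * Complex.I)) = r φ * Complex.exp (θ φ * Complex.I)) :
    ∃ W : ℤ, ∀ φ, θ (φ + 2 * Real.pi) = θ φ + W * (2 * Real.pi) := by
  have h1 : ∀ φ : ℝ, ∃ n : ℤ, (θ (φ + 2 * Real.pi) - θ φ) / (2 * Real.pi) = n := by
    intro φ
    have h2 : b (Complex.exp ((φ + 2 * Real.pi : ℝ) * Complex.I)) =
        b (Complex.exp (φ * Complex.I)) := by
      congr 1
      push_cast
      rw [add_mul, Complex.exp_add, Complex.exp_two_pi_mul_I, mul_one]
    rw [hb, hb] at h2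
    have h3 : r (φ + 2 * Real.pi) = r φ := by
      have := congrArg norm h2
      rwa [norm_mul, norm_mul, Complex.norm_exp_ofReal_mul_I, Complex.norm_exp_ofReal_mul_I,
        mul_one, mul_one, Complex.norm_real, Complex.norm_real, Real.norm_of_nonneg (hr0 _).le,
        Real.norm_of_nonneg (hr0 _).le] at this
    rw [h3] at h2
    have h4 : (r φ : ℂ) ≠ 0 := by exact_mod_cast (hr0 φ).ne'
    have h5 := mul_left_cancel₀ h4 h2
    rw [Complex.exp_eq_exp_iff_exists_int] at h5
    obtain ⟨n, hn⟩ := h5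
    refine ⟨n, ?_⟩
    have h6 : ((θ (φ + 2 * Real.pi) : ℝ) : ℂ) = ((θ φ + n * (2 * Real.pi) : ℝ) : ℂ) := by
      have hI : Complex.I ≠ 0 := Complex.I_ne_zero
      apply mul_right_cancel₀ hI
      rw [hn]
      push_cast
      ring
    have h7 : θ (φ + 2 * Real.pi) = θ φ + n * (2 * Real.pi) := by exact_mod_cast h6
    rw [h7]
    field_simp
    ring
  choose n hn using h1
  have hc : Continuous n := by
    rw [Int.isClosedEmbedding_coe_real.isInducing.continuous_iff]
    have : ((↑) : ℤ → ℝ) ∘ n = fun φ => (θ (φ + 2 * Real.pi) - θ φ) / (2 * Real.pi) := by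
      funext φ
      exact (hn φ).symm
    rw [this]
    exact ((hθ.comp (continuous_id.add continuous_const)).sub hθ).div_const _
  refine ⟨n 0, fun φ => ?_⟩
  have h1 : n φ = n 0 := PreconnectedSpace.constant inferInstance hc
  have h2 := hn φ
  rw [h1, div_eq_iff (by positivity)] at h2
  linarith

/-- the extension of the loop to the outside of the disc -/
def outer (b : ℂ → ℂ) (ψ : ℝ → ℝ) (W : ℤ) (z : ℂ) : ℂ :=
  (((1 - min 1 (‖z‖ - 1)) * ‖b (z / (‖z‖ : ℂ))‖ + min 1 (‖z‖ - 1) * ‖z‖ : ℝ) : ℂ) *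
    (z / (‖z‖ : ℂ)) ^ W *
    Complex.exp (((1 - min 1 (‖z‖ - 1)) * ψ (Complex.arg z) : ℝ) * Complex.I)

lemma continuousAt_outer {b : ℂ → ℂ} {ψ : ℝ → ℝ} (hb : Continuous b) (hψ : Continuous ψ)
    (hp : Function.Periodic ψ (2 * Real.pi)) (W : ℤ) {z : ℂ} (hz : z ≠ 0) :
    ContinuousAt (outer b ψ W) z := by
  have hs : Continuous (fun w : ℂ => min 1 (‖w‖ - 1)) :=
    continuous_const.min (continuous_norm.sub continuous_const)
  unfold outer
  refine ContinuousAt.mul (ContinuousAt.mul ?_ ?_) ?_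
  · refine Complex.continuous_ofReal.continuousAt.comp ?_
    refine ContinuousAt.add (ContinuousAt.mul ?_ ?_) ?_
    · exact (continuous_const.sub hs).continuousAt
    · exact continuous_norm.continuousAt.comp (hb.continuousAt.comp (continuousAt_unit hz))
    · exact (hs.mul continuous_norm).continuousAt
  · exact (continuousAt_unit hz).zpow₀ W (Or.inl (unit_ne hz))
  · refine Complex.continuous_exp.continuousAt.comp ?_
    refine ContinuousAt.mul ?_ continuousAt_const
    refine Complex.continuous_ofReal.continuousAt.comp ?_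
    exact (continuous_const.sub hs).continuousAt.mul (continuousAt_periodic_arg hψ hp hz)

lemma unit_eq_exp {z : ℂ} (hz : z ≠ 0) :
    z / (‖z‖ : ℂ) = Complex.exp (Complex.arg z * Complex.I) := by
  have h : (‖z‖ : ℂ) ≠ 0 := by exact_mod_cast (norm_ne_zero_iff.2 hz)
  rw [div_eq_iff h, mul_comm]
  exact (Complex.norm_mul_exp_arg_mul_I z).symm

lemma outer_ne {b : ℂ → ℂ} {r θ : ℝ → ℝ} (hr0 : ∀ φ, 0 < r φ)
    (hb : ∀ φ : ℝ, b (Complex.exp (φ * Complex.I)) = r φ * Complex.exp (θ φ * Complex.I))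
    (ψ : ℝ → ℝ) (W : ℤ) {z : ℂ} (hz : 1 ≤ ‖z‖) : outer b ψ W z ≠ 0 := by
  have hz0 : z ≠ 0 := by
    rintro rfl
    rw [norm_zero] at hz
    linarith
  have h1 : 0 < ‖b (z / (‖z‖ : ℂ))‖ := by
    rw [unit_eq_exp hz0, hb, norm_mul, Complex.norm_exp_ofReal_mul_I, mul_one, Complex.norm_real,
      Real.norm_of_nonneg (hr0 _).le]
    exact hr0 _
  have hs0 : 0 ≤ min 1 (‖z‖ - 1) := le_min zero_le_one (by linarith)
  have hs1 : min 1 (‖z‖ - 1) ≤ 1 := min_le_left _ _
  have h2 : 0 < (1 - min 1 (‖z‖ - 1)) * ‖b (z / (‖z‖ : ℂ))‖ + min 1 (‖z‖ - 1) * ‖z‖ := by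
    rcases hs0.eq_or_lt with h | h
    · rw [← h]
      simpa using h1
    · have h3 : 0 ≤ (1 - min 1 (‖z‖ - 1)) * ‖b (z / (‖z‖ : ℂ))‖ :=
        mul_nonneg (by linarith) h1.le
      have h4 : 0 < min 1 (‖z‖ - 1) * ‖z‖ := mul_pos h (by linarith)
      linarith
  unfold outer
  refine mul_ne_zero (mul_ne_zero ?_ (zpow_ne_zero _ (unit_ne hz0))) (Complex.exp_ne_zero _)
  exact_mod_cast h2.ne'

lemma outer_far (b : ℂ → ℂ) (ψ : ℝ → ℝ) (W : ℤ) {z : ℂ} (hz : 2 ≤ ‖z‖) :
    outer b ψ W z = prw W z := by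
  have h1 : min 1 (‖z‖ - 1) = 1 := min_eq_left (by linarith)
  unfold outer prw
  rw [h1]
  simp

lemma outer_one {b : ℂ → ℂ} {r θ ψ : ℝ → ℝ} (hr0 : ∀ φ, 0 < r φ)
    (hb : ∀ φ : ℝ, b (Complex.exp (φ * Complex.I)) = r φ * Complex.exp (θ φ * Complex.I))
    (W : ℤ) (hψ : ∀ φ, ψ φ = θ φ - W * φ) {z : ℂ} (hz : ‖z‖ = 1) : outer b ψ W z = b z := by
  have hz0 : z ≠ 0 := by
    rintro rfl
    rw [norm_zero] at hz
    exact zero_ne_one hz
  have h1 : min 1 (‖z‖ - 1) = 0 := by
    rw [hz, sub_self]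
    exact min_eq_right zero_le_one
  have h2 : z = Complex.exp (Complex.arg z * Complex.I) := by
    have := unit_eq_exp hz0
    rwa [hz, Complex.ofReal_one, div_one] at this
  unfold outer
  rw [h1, unit_eq_exp hz0, hb]
  conv_rhs => rw [h2, hb]
  rw [norm_mul, Complex.norm_exp_ofReal_mul_I, mul_one, Complex.norm_real,
      Real.norm_of_nonneg (hr0 _).le, ← Complex.exp_int_mul, hψ]
  rw [sub_zero, one_mul, zero_mul, add_zero, one_mul, mul_assoc, ← Complex.exp_add]
  congr 2
  push_cast
  ring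

theorem ess (ftd : FtdStmt) : EssStmt := by
  classical
  intro E _ _ b r θ hbc hr hθ hr0 hb hne hIne
  obtain ⟨β', T', hβ', hT', hbd, hzero⟩ := hIne
  obtain ⟨hT'c, K, hK, hT'K⟩ := hT'
  obtain ⟨W, hW⟩ := angle_period hθ hr0 hb
  have hW0 : W ≠ 0 := by
    rintro rfl
    have := hW 0
    simp at this
    exact hne this
  set ψ : ℝ → ℝ := fun φ => θ φ - W * φ with hψ
  have hψc : Continuous ψ := hθ.sub (continuous_const.mul continuous_id)
  have hψp : Function.Periodic ψ (2 * Real.pi) := by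
    intro φ
    simp only [hψ, hW]
    ring
  have hout := fun z hz => continuousAt_outer hbc hψc hψp W (z := z) hz
  -- the planar map
  set b₁ : ℂ → ℂ := (closedBall (0 : ℂ) 1).piecewise b (outer b ψ W) with hb₁
  have hb₁c : Continuous b₁ := by
    refine continuous_piecewise ?_ hbc.continuousOn ?_
    · intro z hz
      have h1 : ‖z‖ = 1 := by
        rw [frontier_closedBall (0 : ℂ) (one_ne_zero)] at hz
        simpa using hz
      exact (outer_one hr0 hb W (fun _ => rfl) h1).symm
    · intro z hz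
      have h1 : 1 ≤ ‖z‖ := by
        have h2 : closure (closedBall (0 : ℂ) 1)ᶜ ⊆ {z : ℂ | 1 ≤ ‖z‖} := by
          refine closure_minimal ?_ (isClosed_le continuous_const continuous_norm)
          intro w hw
          rw [mem_compl_iff, mem_closedBall, dist_zero_right, not_le] at hw
          exact hw.le
        exact h2 hz
      refine (hout z ?_).continuousWithinAt
      rintro rfl
      rw [norm_zero] at h1
      linarith
  have hb₁in : ∀ z : ℂ, ‖z‖ ≤ 1 → b₁ z = b z := by
    intro z hz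
    rw [hb₁, piecewise_eq_of_mem]
    rw [mem_closedBall, dist_zero_right]
    exact hz
  have hb₁out : ∀ z : ℂ, 1 < ‖z‖ → b₁ z = outer b ψ W z := by
    intro z hz
    rw [hb₁, piecewise_eq_of_notMem]
    rw [mem_closedBall, dist_zero_right, not_le]
    exact hz
  -- the outer map
  set l : E → ℝ := fun h => min 1 (max 0 (‖h‖ - 1)) with hl
  have hlc : Continuous l :=
    continuous_const.min (continuous_const.max (continuous_norm.sub continuous_const))
  have hl0 : ∀ h : E, ‖h‖ ≤ 1 → l h = 0 := by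
    intro h hh
    simp only [hl]
    rw [max_eq_left (by linarith)]
    exact min_eq_right zero_le_one
  have hl1 : ∀ h : E, 2 ≤ ‖h‖ → l h = 1 := by
    intro h hh
    simp only [hl]
    rw [max_eq_right (by linarith)]
    exact min_eq_left (by linarith)
  set βo : ℂ × E → ℂ := fun z => ((1 - l z.2 : ℝ) : ℂ) * b₁ z.1 + ((l z.2 : ℝ) : ℂ) * prw W z.1
    with hβo
  have hβoc : Continuous βo := by
    have h1 : Continuous (fun z : ℂ × E => ((l z.2 : ℝ) : ℂ)) :=
      Complex.continuous_ofReal.comp (hlc.comp continuous_snd)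
    have h2 : Continuous (fun z : ℂ × E => ((1 - l z.2 : ℝ) : ℂ)) :=
      Complex.continuous_ofReal.comp (continuous_const.sub (hlc.comp continuous_snd))
    exact (h2.mul (hb₁c.comp continuous_fst)).add
      (h1.mul ((continuous_prw W).comp continuous_fst))
  have hDm : IsClosed (Dm ℂ E) :=
    (isClosed_le (continuous_norm.comp continuous_fst) continuous_const).inter
      (isClosed_le (continuous_norm.comp continuous_snd) continuous_const)
  have hfr : frontier (Dm ℂ E) ⊆ Bd ℂ E := by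
    intro z hz
    rw [hDm.frontier_eq] at hz
    obtain ⟨hz1, hz2⟩ := hz
    refine ⟨hz1.1, hz1.2, ?_⟩
    by_contra hcon
    push Not at hcon
    apply hz2
    have hopen : IsOpen {z : ℂ × E | ‖z.1‖ < 1 ∧ ‖z.2‖ < 1} :=
      (isOpen_lt (continuous_norm.comp continuous_fst) continuous_const).inter
      (isOpen_lt (continuous_norm.comp continuous_snd) continuous_const)
    refine mem_interior.2 ⟨_, fun w hw => ⟨hw.1.le, hw.2.le⟩, hopen, ?_⟩
    exact ⟨lt_of_le_of_ne hz1.1 hcon.1, lt_of_le_of_ne hz1.2 hcon.2⟩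
  obtain ⟨z, hz1, hz2⟩ := ftd E W ((Dm ℂ E).piecewise β' βo) ((Dm ℂ E).piecewise T' (fun _ => 0)) 2
    hW0 (by
      refine continuous_piecewise ?_ ?_ hβoc.continuousOn
      · intro z hz
        have h1 := hfr hz
        rw [(hbd z h1).1]
        simp only [hβo, hl0 _ h1.2.1, hb₁in _ h1.1]
        simp
      · rw [hDm.closure_eq]
        exact hβ')
    (by
      refine ⟨?_, insert 0 K, hK.insert 0, ?_⟩
      · refine Continuous.continuousOn ?_
        refine continuous_piecewise ?_ ?_ continuousOn_const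
        · intro z hz
          exact (hbd z (hfr hz)).2
        · rw [hDm.closure_eq]
          exact hT'c
      · intro z _
        by_cases hz : z ∈ Dm ℂ E
        · rw [piecewise_eq_of_mem _ _ _ hz]
          exact Or.inr (hT'K z hz)
        · rw [piecewise_eq_of_notMem _ _ _ hz]
          exact Or.inl rfl)
    (by
      intro z hz
      have hzD : z ∉ Dm ℂ E := by
        rintro ⟨h1, h2⟩
        rw [Prod.norm_def] at hz
        have := max_le h1 h2
        linarith
      rw [piecewise_eq_of_notMem _ _ _ hzD, piecewise_eq_of_notMem _ _ _ hzD]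
      refine ⟨?_, rfl⟩
      simp only [hβo]
      rw [Prod.norm_def] at hz
      rcases le_max_iff.1 hz with h | h
      · rw [hb₁out _ (by linarith), outer_far b ψ W h]
        push_cast
        ring
      · rw [hl1 _ h]
        simp)
  by_cases hz : z ∈ Dm ℂ E
  · rw [piecewise_eq_of_mem _ _ _ hz] at hz1 hz2
    exact hzero z hz ⟨hz1, hz2⟩
  · rw [piecewise_eq_of_notMem _ _ _ hz] at hz1 hz2
    have h1 : ‖z.2‖ ≤ 1 := by
      rw [hz2, norm_zero]
      exact zero_le_one
    have h2 : 1 < ‖z.1‖ := by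
      by_contra hcon
      push Not at hcon
      exact hz ⟨hcon, h1⟩
    simp only [hβo, hl0 _ h1, hb₁out _ h2] at hz1
    apply outer_ne hr0 hb ψ W h2.le
    simpa using hz1

end Pool.Agent.PQP.H32
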