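import Pool.Agent.PQP.StmtsT

/-!
# PQP, row FTD: compact perturbations of the identity, from the finite dimensional case
-/

set_option autoImplicit false

open scoped Topology
open Filter Set Metric

noncomputable section

namespace Pool.Agent.PQP.H32

/-- Schauder projection -/
lemma proj {E : Type*} [NormedAddCommGroup E] [NormedSpace ℝ E] {K : Set E} (hK : IsCompact K)
    {ε : ℝ} (hε : 0 < ε) :
    ∃ (V : Submodule ℝ E) (p : E → E), FiniteDimensional ℝ V ∧ ContinuousOn p K ∧
      (∀ x ∈ K, ‖p x - x‖ ≤ ε) ∧ ∀ x, p x ∈ V := by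
  classical
  obtain ⟨t, htK, hcov⟩ := hK.elim_nhds_subcover (fun x => ball x ε)
    (fun x _ => ball_mem_nhds x hε)
  set κ : E → t → ℝ := fun z p => max 0 (ε - dist z p) with hκ
  have hκc : Continuous κ := by
    refine continuous_pi fun p => ?_
    exact continuous_const.max (continuous_const.sub (continuous_id.dist continuous_const))
  have hκ0 : ∀ z p, 0 ≤ κ z p := fun z p => le_max_left _ _
  have hS : ∀ z ∈ K, 0 < ∑ p, κ z p := by
    intro z hz
    obtain ⟨p, hp, hzp⟩ := mem_iUnion₂.1 (hcov hz)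
    refine Finset.sum_pos' (fun q _ => hκ0 z q) ⟨⟨p, hp⟩, Finset.mem_univ _, ?_⟩
    exact lt_max_of_lt_right (sub_pos.2 hzp)
  refine ⟨Submodule.span ℝ (t : Set E), fun z => ∑ q : t, (κ z q / ∑ r, κ z r) • (q : E),
    FiniteDimensional.span_finset ℝ t, ?_, ?_, ?_⟩
  · refine continuousOn_finsetSum _ fun q _ => ?_
    refine ContinuousOn.smul ?_ continuousOn_const
    refine ContinuousOn.div ((continuous_apply q).comp hκc).continuousOn ?_ ?_
    · exact continuousOn_finsetSum _ fun r _ => ((continuous_apply r).comp hκc).continuousOn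
    · intro z hz
      exact (hS z hz).ne'
  · intro z hz
    have hpos := hS z hz
    have hsum : ∑ q : t, (κ z q / ∑ r, κ z r) = 1 := by
      rw [← Finset.sum_div, div_self hpos.ne']
    have h1 : (∑ q : t, (κ z q / ∑ r, κ z r) • (q : E)) - z =
        ∑ q : t, (κ z q / ∑ r, κ z r) • ((q : E) - z) := by
      simp only [smul_sub, Finset.sum_sub_distrib, ← Finset.sum_smul, hsum, one_smul]
    rw [h1]
    calc ‖∑ q : t, (κ z q / ∑ r, κ z r) • ((q : E) - z)‖
        ≤ ∑ q : t, ‖(κ z q / ∑ r, κ z r) • ((q : E) - z)‖ := norm_sum_le _ _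
      _ ≤ ∑ q : t, (κ z q / ∑ r, κ z r) * ε := by
        refine Finset.sum_le_sum fun q _ => ?_
        have hq0 : 0 ≤ κ z q / ∑ r, κ z r := div_nonneg (hκ0 _ _) hpos.le
        rw [norm_smul, Real.norm_of_nonneg hq0]
        by_cases h0 : κ z q = 0
        · rw [h0, zero_div, zero_mul, zero_mul]
        · have h2 : 0 < κ z q := lt_of_le_of_ne (hκ0 z q) (Ne.symm h0)
          have h3 : dist z q < ε := by
            by_contra hcon
            push Not at hcon
            apply h0
            simp only [hκ]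
            exact max_eq_left (by linarith)
          rw [dist_comm, dist_eq_norm] at h3
          exact mul_le_mul_of_nonneg_left h3.le hq0
      _ = ε := by rw [← Finset.sum_mul, hsum, one_mul]
  · intro z
    refine Submodule.sum_mem _ fun q _ => Submodule.smul_mem _ _ ?_
    exact Submodule.subset_span q.2

lemma norm_prw (W : ℤ) (z : ℂ) : ‖prw W z‖ = ‖z‖ := by
  unfold prw
  by_cases hz : z = 0
  · simp [hz]
  · have h : ‖z‖ ≠ 0 := norm_ne_zero_iff.2 hz
    rw [norm_mul, norm_zpow, norm_div]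
    simp [h]

theorem ftd (dol : DolStmt) : FtdStmt := by
  intro E _ _ W β T R hW hβ hT hR
  obtain ⟨hTc, K, hK, hTK⟩ := hT
  have hTc : Continuous T := continuousOn_univ.1 hTc
  by_contra hno
  push Not at hno
  -- the gap
  have hgap : ∃ ε : ℝ, 0 < ε ∧ ∀ z : ℂ × E, ‖β z‖ < ε → ε ≤ ‖z.2 - T z‖ := by
    by_contra hcon
    push Not at hcon
    have h1 : ∀ n : ℕ, ∃ z : ℂ × E, ‖β z‖ < 1 / ((n : ℝ) + 1) ∧ ‖z.2 - T z‖ < 1 / ((n : ℝ) + 1) :=
      fun n => hcon _ (by positivity)
    choose z hz1 hz2 using h1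
    have hbd : ∀ n, (z n).1 ∈ closedBall (0 : ℂ) (max R 1) := by
      intro n
      rw [mem_closedBall, dist_zero_right]
      by_cases hn : R ≤ ‖z n‖
      · have h2 := (hR _ hn).1
        have h3 := hz1 n
        rw [h2, norm_prw] at h3
        have h4 : 1 / ((n : ℝ) + 1) ≤ 1 := by
          rw [div_le_one (by positivity)]
          have : (0 : ℝ) ≤ n := Nat.cast_nonneg n
          linarith
        exact le_max_of_le_right (by linarith)
      · push Not at hn
        exact le_max_of_le_left ((norm_fst_le _).trans hn.le)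
    have hcpt : IsCompact (closedBall (0 : ℂ) (max R 1) ×ˢ K) :=
      (isCompact_closedBall _ _).prod hK
    obtain ⟨⟨a, k⟩, hak, φ, hφ, hlim⟩ := hcpt.tendsto_subseq
      (x := fun n => ((z n).1, T (z n))) (fun n => ⟨hbd n, hTK _ (mem_univ _)⟩)
    have hl1 : Tendsto (fun n => (z (φ n)).1) atTop (𝓝 a) :=
      (continuous_fst.tendsto _).comp hlim
    have hl2 : Tendsto (fun n => T (z (φ n))) atTop (𝓝 k) :=
      (continuous_snd.tendsto _).comp hlim
    have h0 : Tendsto (fun n : ℕ => 1 / ((n : ℝ) + 1)) atTop (𝓝 0) :=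
      tendsto_one_div_add_atTop_nhds_zero_nat
    have h0φ : Tendsto (fun n : ℕ => 1 / (((φ n : ℕ) : ℝ) + 1)) atTop (𝓝 0) :=
      h0.comp hφ.tendsto_atTop
    have hd : Tendsto (fun n => (z (φ n)).2 - T (z (φ n))) atTop (𝓝 0) := by
      refine squeeze_zero_norm (fun n => ?_) h0φ
      exact (hz2 (φ n)).le
    have hl3 : Tendsto (fun n => (z (φ n)).2) atTop (𝓝 k) := by
      have := hd.add hl2
      simpa using this
    have hlz : Tendsto (fun n => z (φ n)) atTop (𝓝 (a, k)) := by
      have := hl1.prodMk_nhds hl3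
      simpa using this
    have hb0 : β (a, k) = 0 := by
      have h5 : Tendsto (fun n => β (z (φ n))) atTop (𝓝 (β (a, k))) :=
        (hβ.tendsto _).comp hlz
      have h6 : Tendsto (fun n => β (z (φ n))) atTop (𝓝 0) := by
        refine squeeze_zero_norm (fun n => ?_) h0φ
        exact (hz1 (φ n)).le
      exact tendsto_nhds_unique h5 h6
    have hT0 : T (a, k) = k := by
      have h5 : Tendsto (fun n => T (z (φ n))) atTop (𝓝 (T (a, k))) :=
        (hTc.tendsto _).comp hlz
      exact tendsto_nhds_unique h5 hl2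
    exact hno (a, k) hb0 hT0.symm
  obtain ⟨ε, hε, hgap⟩ := hgap
  -- the projection
  obtain ⟨V, p, hV, hpc, hpK, hpV⟩ := proj (hK.insert 0) (ε := ε / 3) (by positivity)
  set T' : ℂ × E → V := fun z => ⟨p (T z) - p 0, V.sub_mem (hpV _) (hpV _)⟩ with hT'
  have hT'c : Continuous T' := by
    refine Continuous.subtype_mk ?_ _
    refine Continuous.sub ?_ continuous_const
    exact hpc.comp_continuous hTc fun z => Or.inr (hTK z (mem_univ _))
  have hT'd : ∀ z, ‖(T' z : E) - T z‖ ≤ 2 * (ε / 3) := by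
    intro z
    have h1 := hpK (T z) (Or.inr (hTK z (mem_univ _)))
    have h2 := hpK 0 (Or.inl rfl)
    have h3 : (T' z : E) - T z = (p (T z) - T z) - (p 0 - 0) := by
      simp only [hT']
      abel
    rw [h3]
    exact (norm_sub_le _ _).trans (by linarith)
  set e : V ≃L[ℝ] (Fin (Module.finrank ℝ V) → ℝ) :=
    (Module.finBasis ℝ V).equivFun.toContinuousLinearEquiv with he
  set g : ℂ × (Fin (Module.finrank ℝ V) → ℝ) → ℂ × (Fin (Module.finrank ℝ V) → ℝ) :=
    fun z => (β (z.1, (e.symm z.2 : E)), z.2 - e (T' (z.1, (e.symm z.2 : E)))) with hg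
  have hin : Continuous (fun z : ℂ × (Fin (Module.finrank ℝ V) → ℝ) =>
      ((z.1, ((e.symm z.2 : V) : E)) : ℂ × E)) :=
    continuous_fst.prodMk (continuous_subtype_val.comp (e.symm.continuous.comp continuous_snd))
  have hgc : Continuous g := by
    refine Continuous.prodMk (hβ.comp hin) ?_
    exact continuous_snd.sub (e.continuous.comp (hT'c.comp hin))
  obtain ⟨c, hc0, hcb⟩ : ∃ c : ℝ, 0 ≤ c ∧ ∀ v : V, ‖e v‖ ≤ c * ‖v‖ := by
    obtain ⟨c, hc, hcb⟩ := (e : V →L[ℝ] (Fin (Module.finrank ℝ V) → ℝ)).bound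
    exact ⟨c, hc.le, hcb⟩
  obtain ⟨z, hz⟩ := dol (Module.finrank ℝ V) W g ((1 + c) * max R 1) hW hgc (by
    intro z hz
    have hm1 : (1 : ℝ) ≤ max R 1 := le_max_right _ _
    have hbig : R ≤ ‖((z.1, ((e.symm z.2 : V) : E)) : ℂ × E)‖ := by
      by_contra hcon
      push Not at hcon
      have h1 : ‖z.1‖ < max R 1 := lt_of_le_of_lt (norm_fst_le ((z.1, ((e.symm z.2 : V) : E)) : ℂ × E))
        (lt_of_lt_of_le hcon (le_max_left _ _))
      have h2 : ‖((e.symm z.2 : V) : E)‖ < max R 1 :=
        lt_of_le_of_lt (norm_snd_le ((z.1, ((e.symm z.2 : V) : E)) : ℂ × E))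
        (lt_of_lt_of_le hcon (le_max_left _ _))
      have h3 : ‖z.2‖ ≤ c * ‖(e.symm z.2 : V)‖ := by
        have := hcb (e.symm z.2)
        rwa [ContinuousLinearEquiv.apply_symm_apply] at this
      have h4 : ‖z.2‖ ≤ c * max R 1 := h3.trans (mul_le_mul_of_nonneg_left h2.le hc0)
      have h5 : ‖z‖ < (1 + c) * max R 1 := by
        rw [Prod.norm_def]
        refine max_lt ?_ ?_
        · have : 0 ≤ c * max R 1 := by positivity
          linarith
        · linarith
      linarith
    obtain ⟨h1, h2⟩ := hR _ hbig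
    have h3 : T' (z.1, ((e.symm z.2 : V) : E)) = 0 := by
      apply Subtype.ext
      simp only [hT', h2, sub_self]
      rfl
    simp only [hg, h1, h3, map_zero, sub_zero])
  simp only [hg, Prod.mk_eq_zero] at hz
  obtain ⟨hz1, hz2⟩ := hz
  have h1 : e.symm z.2 = T' (z.1, ((e.symm z.2 : V) : E)) := by
    rw [ContinuousLinearEquiv.symm_apply_eq]
    exact sub_eq_zero.1 hz2
  have h2 := hgap (z.1, ((e.symm z.2 : V) : E)) (by rw [hz1, norm_zero]; exact hε)
  have h3 := hT'd (z.1, ((e.symm z.2 : V) : E))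
  rw [← h1] at h3
  simp only at h2
  linarith

end Pool.Agent.PQP.H32
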